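import Mathlib
import Pool.Agent.Lib.helper6.Dist

set_option autoImplicit false

open SimpleGraph Finset

namespace Pool.Agent.Results.MP_dd6dde_co.Counter

/-- Number of vertices strictly closer to `u` than to `v`. -/
noncomputable def nn {V : Type} (G : SimpleGraph V) (u v : V) : ℕ :=
  {w | G.dist w u < G.dist w v}.ncard

open Classical in
noncomputable def Sz {V : Type} [Fintype V] (G : SimpleGraph V) (α : ℝ) : ℝ :=
  (∑ u, ∑ v, if G.Adj u v then ((nn G u v * nn G v u : ℕ) : ℝ) ^ α else 0) / 2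

open Classical in
noncomputable def Wi {V : Type} [Fintype V] (G : SimpleGraph V) (α : ℝ) : ℝ :=
  (∑ x, ∑ y, if x ≠ y then (G.dist x y : ℝ) ^ α else 0) / 2

def s (i : Fin 19) : ℕ :=
  if i.val = 1 ∨ i.val = 2 then 100000 else if i.val = 18 then 5000 else 1

def lv (i : Fin 19) : ℕ := if i.val ≤ 1 then i.val else i.val - 1

def Dc (i j : Fin 19) : ℕ :=
  if (i.val = 0 ∧ j.val = 2) ∨ (i.val = 2 ∧ j.val = 0) then 2
  else if lv i = lv j then 1 else (lv i - lv j) + (lv j - lv i)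

abbrev V := Σ i : Fin 19, Fin (s i)

lemma Dc_comm : ∀ i j, Dc i j = Dc j i := by decide +kernel
lemma Dc_self : ∀ i, Dc i i = 1 := by decide +kernel
lemma Dc_pos : ∀ i j, 0 < Dc i j := by decide +kernel
lemma s_pos : ∀ i, 0 < s i := by decide +kernel

def G : SimpleGraph V where
  Adj u v := u ≠ v ∧ Dc u.1 v.1 = 1
  symm := ⟨fun u v h => ⟨h.1.symm, by rw [Dc_comm]; exact h.2⟩⟩
  loopless := ⟨fun _ h => h.1 rfl⟩

lemma hD (u v : V) : G.Reachable u v ∧ G.dist u v = if u = v then 0 else Dc u.1 v.1 := by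
  have k1 : ∀ i j k, Dc j k = 1 → Dc i k ≤ Dc i j + 1 := by decide +kernel
  have k2 : ∀ i j, Dc i j = 1 ∨ ∃ k, k ≠ i ∧ k ≠ j ∧ Dc k j = 1 ∧ Dc i k + 1 = Dc i j := by
    decide +kernel
  refine Pool.Agent.Lib.helper6.dist_eq_of_cert G (fun u v => if u = v then 0 else Dc u.1 v.1)
    (by simp) ?_ ?_ u v
  · intro u v w h
    have h1 := k1 u.1 v.1 w.1 h.2
    have h2 := h.2
    by_cases e1 : u = w
    · simp [e1]
    · by_cases e2 : u = v
      · subst e2; simp [e1, h2]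
      · simpa [e1, e2] using h1
  · intro u v
    by_cases e : u = v
    · exact Or.inl e
    · right
      rcases k2 u.1 v.1 with h | ⟨k, h1, h2, h3, h4⟩
      · exact ⟨u, ⟨e, h⟩, by simp [e, h]⟩
      · refine ⟨⟨k, ⟨0, s_pos k⟩⟩, ⟨fun h => h2 (congrArg Sigma.fst h), h3⟩, ?_⟩
        have : u ≠ ⟨k, ⟨0, s_pos k⟩⟩ := fun h => h1 (congrArg Sigma.fst h).symm
        simp [e, this, h4]

def N (i j : Fin 19) : ℕ := 1 + ∑ k, if Dc k i < Dc k j then s k else 0

lemma nn_eq (u v : V) (h : G.Adj u v) : nn G u v = N u.1 v.1 := by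
  have h2 := h.2
  have e : {w | G.dist w u < G.dist w v} =
      ((insert u (univ.filter (fun w : V => Dc w.1 u.1 < Dc w.1 v.1)) : Finset V) : Set V) := by
    ext w
    simp only [Set.mem_ofPred_eq, (hD _ _).2, coe_insert, coe_filter, mem_univ, true_and,
      Set.mem_insert_iff]
    by_cases e1 : w = u
    · subst e1; simp [h.1, h2]
    · by_cases e2 : w = v
      · subst e2
        have := Dc_pos w.1 u.1
        simp only [e1, if_false, if_true, Dc_self, false_or]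
        omega
      · simp [e1, e2]
  unfold nn N
  rw [e, Set.ncard_coe_finset, card_insert_of_notMem (by simp [Dc_self, h2]), card_filter,
    Fintype.sum_sigma, add_comm]
  refine congrArg (1 + ·) (sum_congr rfl (fun k _ => ?_))
  by_cases hk : Dc k u.1 < Dc k v.1 <;> simp [hk]

noncomputable def T (α : ℝ) (i j : Fin 19) : ℝ :=
  (if Dc i j = 1 then ((N i j * N j i : ℕ) : ℝ) ^ α else 0) - (Dc i j : ℝ) ^ α

noncomputable def h (α : ℝ) : ℝ := ∑ i, ∑ j, (s i * s j : ℕ) * T α i j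

lemma h_eq (α : ℝ) : Sz G α - Wi G α = h α / 2 := by
  unfold Sz Wi h
  rw [← sub_div, ← sum_sub_distrib]
  congr 1
  have e : ∀ u v : V, ((@ite _ (G.Adj u v) (Classical.propDecidable _)
      (((nn G u v * nn G v u : ℕ) : ℝ) ^ α) 0) -
      (@ite _ (u ≠ v) (Classical.propDecidable _) ((G.dist u v : ℝ) ^ α) 0)) = T α u.1 v.1 := by
    intro u v
    by_cases e1 : u = v
    · subst e1
      simp [T, N, Dc_self]
    · rw [if_pos e1, (hD u v).2, if_neg e1]
      unfold T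
      by_cases e2 : Dc u.1 v.1 = 1
      · have ha : G.Adj u v := ⟨e1, e2⟩
        rw [if_pos ha, if_pos e2, nn_eq u v ha, nn_eq v u ha.symm]
      · rw [if_neg (fun h => e2 h.2), if_neg e2]
  trans ∑ u : V, ∑ v : V, T α u.1 v.1
  · refine sum_congr rfl (fun u _ => ?_)
    rw [← sum_sub_distrib]
    refine sum_congr rfl (fun v _ => ?_)
    convert e u v
  · rw [Fintype.sum_sigma]
    refine sum_congr rfl (fun i _ => ?_)
    simp only [Fintype.sum_sigma, sum_const, card_univ, Fintype.card_fin, nsmul_eq_mul, mul_sum]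
    refine sum_congr rfl (fun j _ => ?_)
    push_cast
    ring

lemma h_cont : Continuous h := by
  unfold h T
  refine continuous_finsetSum _ (fun i _ => continuous_finsetSum _ (fun j _ => ?_))
  refine continuous_const.mul (Continuous.sub ?_ ?_)
  · split_ifs
    · refine Real.continuous_const_rpow ?_
      have hN : ∀ i j, N i j ≠ 0 := fun i j => by unfold N; omega
      exact Nat.cast_ne_zero.2 (Nat.mul_ne_zero (hN _ _) (hN _ _))
    · exact continuous_const
  · exact Real.continuous_const_rpow (by exact_mod_cast (Dc_pos i j).ne')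

def rt : ℕ → ℕ → ℕ → ℕ
  | 0, _, a => a
  | b + 1, y, a => if (a + 2 ^ b) ^ 4 ≤ y then rt b y (a + 2 ^ b) else rt b y a

def lo (k x : ℕ) : ℕ := rt 50 (x ^ k * 10000 ^ 4) 0

def Ok (k x : ℕ) : Prop := lo k x ^ 4 ≤ x ^ k * 10000 ^ 4 ∧ x ^ k * 10000 ^ 4 ≤ (lo k x + 1) ^ 4

instance (k x : ℕ) : Decidable (Ok k x) := by unfold Ok; infer_instance

lemma bnd (k x : ℕ) (hk : Ok k x) : (lo k x : ℝ) ≤ 10000 * (x : ℝ) ^ ((k : ℝ) / 4) ∧
    10000 * (x : ℝ) ^ ((k : ℝ) / 4) ≤ lo k x + 1 := by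
  have e : (10000 * (x : ℝ) ^ ((k : ℝ) / 4)) ^ 4 = ((x ^ k * 10000 ^ 4 : ℕ) : ℝ) := by
    rw [mul_pow, ← Real.rpow_natCast ((x : ℝ) ^ ((k : ℝ) / 4)), ← Real.rpow_mul (by positivity)]
    push_cast
    rw [div_mul_cancel₀ _ (by norm_num), Real.rpow_natCast]
    ring
  constructor
  · refine le_of_pow_le_pow_left₀ (n := 4) (by norm_num) (by positivity) ?_
    rw [e]; exact_mod_cast hk.1
  · refine le_of_pow_le_pow_left₀ (n := 4) (by norm_num) (by positivity) ?_
    rw [e]; exact_mod_cast hk.2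

def A (k c : ℕ) : ℕ :=
  ∑ i, ∑ j, s i * s j * (if Dc i j = 1 then lo k (N i j * N j i) + c else 0)

def B (k c : ℕ) : ℕ := ∑ i, ∑ j, s i * s j * (lo k (Dc i j) + c)

lemma h_bnd (k : ℕ) (h1 : ∀ i j, Dc i j = 1 → Ok k (N i j * N j i)) (h2 : ∀ i j, Ok k (Dc i j)) :
    (A k 0 : ℝ) - B k 1 ≤ 10000 * h (k / 4) ∧ 10000 * h (k / 4) ≤ (A k 1 : ℝ) - B k 0 := by
  unfold A B h
  push_cast
  simp only [mul_sum, ← sum_sub_distrib]
  constructor <;> refine sum_le_sum (fun i _ => sum_le_sum (fun j _ => ?_)) <;>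
    rw [← mul_sub, mul_left_comm] <;>
    refine mul_le_mul_of_nonneg_left ?_ (by positivity) <;>
    have b2 := bnd k _ (h2 i j) <;> unfold T <;> split_ifs with hd
  · have b1 := bnd k _ (h1 i j hd)
    linarith [b1.1, b2.2]
  · linarith [b2.2]
  · have b1 := bnd k _ (h1 i j hd)
    linarith [b1.2, b2.1]
  · linarith [b2.1]

lemma neg0 : h 0 < 0 := by
  have h1 := (h_bnd 0 (by decide +kernel) (by decide +kernel)).2
  have h2 : A 0 1 < B 0 0 := by decide +kernel
  have h3 : (A 0 1 : ℝ) < B 0 0 := by exact_mod_cast h2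
  norm_num at h1
  linarith

lemma pos2 : 0 < h (1 / 2) := by
  have h1 := (h_bnd 2 (by decide +kernel) (by decide +kernel)).1
  have h2 : B 2 1 < A 2 0 := by decide +kernel
  have h3 : (B 2 1 : ℝ) < A 2 0 := by exact_mod_cast h2
  norm_num at h1 ⊢
  linarith

lemma neg3 : h (3 / 4) < 0 := by
  have h1 := (h_bnd 3 (by decide +kernel) (by decide +kernel)).2
  have h2 : A 3 1 < B 3 0 := by decide +kernel
  have h3 : (A 3 1 : ℝ) < B 3 0 := by exact_mod_cast h2
  norm_num at h1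
  linarith

theorem result : ∃ (V : Type) (_ : Fintype V) (G : SimpleGraph V), G.Connected ∧ G ≠ ⊤ ∧
    ∃ α β : ℝ, α ≠ β ∧ Sz G α = Wi G α ∧ Sz G β = Wi G β := by
  have : Nonempty V := ⟨⟨0, ⟨0, s_pos 0⟩⟩⟩
  refine ⟨V, inferInstance, G, ⟨fun u v => (hD u v).1⟩, ?_, ?_⟩
  · intro h
    have h1 : G.Adj ⟨0, ⟨0, s_pos 0⟩⟩ ⟨2, ⟨0, s_pos 2⟩⟩ := by
      rw [h]
      exact fun e => absurd (congrArg Sigma.fst e) (by decide)
    exact absurd h1.2 (by decide)
  · obtain ⟨a, ha, ha0⟩ := intermediate_value_Ioo (show (0 : ℝ) ≤ 1 / 2 by norm_num)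
      h_cont.continuousOn (show (0 : ℝ) ∈ Set.Ioo (h 0) (h (1 / 2)) from ⟨neg0, pos2⟩)
    obtain ⟨b, hb, hb0⟩ := intermediate_value_Ioo' (show (1 / 2 : ℝ) ≤ 3 / 4 by norm_num)
      h_cont.continuousOn (show (0 : ℝ) ∈ Set.Ioo (h (3 / 4)) (h (1 / 2)) from ⟨neg3, pos2⟩)
    refine ⟨a, b, (ha.2.trans hb.1).ne, ?_, ?_⟩
    · have := h_eq a
      rw [ha0] at this; linarith
    · have := h_eq b
      rw [hb0] at this; linarith

end Pool.Agent.Results.MP_dd6dde_co.Counter
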